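import Pool.Agent.Work.MP_54723a_co.LemmaS

/-!
# The root forms (PC), (A), (B), PC', CH of squad F and the bound `|V| ≤ l ^ R`

Conventions: `Lev c V l lev` = there is no monochromatic monotone path with `l` edges in `V`;
`Rk c V R` = all rainbow monotone paths in `V` have at most `R` edges;
`RP c V x D` / `RS c V x D` / `RQ c V x y D` = a rainbow path in `V` with palette `D` which ends at `x`
/ starts at `x` / goes from `x` to `y`.

* `Part l R` : every `V` without `l`-flash of rank `≤ R + 1` is a union of `l` sets of rank `≤ R`.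
* `FormA l R` (note 6942 (A)), `FormB l R` (note 6942 (B) = PC* of 6949 = T2E of 6940),
  `FormPC' l R` (note 6940), `CHl l R` and `CH R` (chain lemma, note 6959).
Each of them for all `R ≥ 1` gives `|V| ≤ l ^ R` for all `R` (`FormB`: `l ≥ 2`, the others: `l ≥ 3`).
-/

set_option autoImplicit false

namespace FlashRainbow

open Classical

variable {c : ℕ → ℕ → ℕ} {V T A : Finset ℕ} {l R g : ℕ} {lev : ℕ → ℕ → ℕ}

/-! ## Paths with two ends -/

/-- rainbow paths from `x` to the index -/
inductive RQ (c : ℕ → ℕ → ℕ) (V : Finset ℕ) (x : ℕ) : ℕ → Finset ℕ → Prop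
  | single : x ∈ V → RQ c V x x ∅
  | step {y z : ℕ} {D : Finset ℕ} : RQ c V x y D → z ∈ V → y < z → c y z ∉ D →
      RQ c V x z (insert (c y z) D)

theorem RQ.toRP {x y : ℕ} {D : Finset ℕ} (h : RQ c V x y D) : RP c V y D := by
  induction h with
  | single hx => exact RP.single hx
  | step _ hy hlt hc ih => exact RP.step ih hy hlt hc

theorem RQ.mono {x y : ℕ} {D : Finset ℕ} (h : RQ c T x y D) (hTV : T ⊆ V) : RQ c V x y D := by
  induction h with
  | single hx => exact RQ.single (hTV hx)
  | step _ hy hlt hc ih => exact RQ.step ih (hTV hy) hlt hc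

theorem RP.exists_RQ {y : ℕ} {D : Finset ℕ} (h : RP c V y D) : ∃ x, RQ c V x y D := by
  induction h with
  | @single x hx => exact ⟨x, RQ.single hx⟩
  | step _ hy hlt hc ih =>
    obtain ⟨x, hx⟩ := ih
    exact ⟨x, RQ.step hx hy hlt hc⟩

theorem RQ.toRS_aux {x y : ℕ} {D : Finset ℕ} (h : RQ c V x y D) :
    ∀ E, RS c V y E → Disjoint D E → RS c V x (D ∪ E) := by
  induction h with
  | single hx =>
    intro E hE _
    simpa using hE
  | @step y z D h hz hlt hc ih =>
    intro E hE hdis
    rw [Finset.disjoint_insert_left] at hdis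
    have h1 := RS.step hE h.toRP.mem hlt hdis.1
    have h2 := ih _ h1 (by
      rw [Finset.disjoint_insert_right]
      exact ⟨hc, hdis.2⟩)
    rw [Finset.union_insert] at h2
    rw [Finset.insert_union]
    exact h2

theorem RQ.toRS {x y : ℕ} {D : Finset ℕ} (h : RQ c V x y D) : RS c V x D := by
  simpa using h.toRS_aux ∅ (RS.single h.toRP.mem) (Finset.disjoint_empty_right _)

theorem Rk.sub {r : ℕ} (h : Rk c V r) (hTV : T ⊆ V) : Rk c T r := fun y D hD => h y D (hD.mono hTV)

theorem Rk.le {r s : ℕ} (h : Rk c V r) (hrs : r ≤ s) : Rk c V s :=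
  fun y D hD => (h y D hD).trans hrs

/-! ## The partition statement gives the bound -/

/-- every set of rank at most `R + 1` without `l`-flash is the union of `l` sets of rank at most
`R` -/
def Part (l R : ℕ) : Prop :=
  ∀ (c : ℕ → ℕ → ℕ) (V : Finset ℕ) (lev : ℕ → ℕ → ℕ), Lev c V l lev → Rk c V (R + 1) →
    ∃ φ : ℕ → ℕ, (∀ v ∈ V, φ v < l) ∧ ∀ i < l, Rk c (V.filter fun v => φ v = i) R

theorem card_le_one_of_Rk_zero (h : Rk c V 0) : V.card ≤ 1 := by
  rw [Finset.card_le_one]
  intro a ha b hb
  by_contra hab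
  rcases lt_or_gt_of_ne hab with hlt | hlt
  · have h1 := h b _ (RP.step (RP.single ha) hb hlt (by simp))
    simp at h1
  · have h1 := h a _ (RP.step (RP.single hb) ha hlt (by simp))
    simp at h1

/-- the bound up to `R₀`, from the partition statement below `R₀` -/
theorem card_le_of_part_upto {R₀ : ℕ} (hP : ∀ R < R₀, Part l R) :
    ∀ R ≤ R₀, ∀ (c : ℕ → ℕ → ℕ) (V : Finset ℕ) (lev : ℕ → ℕ → ℕ), Lev c V l lev → Rk c V R →
      V.card ≤ l ^ R := by
  intro R
  induction R with
  | zero =>
    intro _ c V lev _ h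
    simpa using card_le_one_of_Rk_zero h
  | succ R ih =>
    intro hR0 c V lev hL h
    obtain ⟨φ, hφ, hr⟩ := hP R hR0 c V lev hL h
    have hmaps : ∀ v ∈ V, φ v ∈ Finset.range l := fun v hv => Finset.mem_range.mpr (hφ v hv)
    rw [Finset.card_eq_sum_card_fiberwise hmaps]
    calc ∑ b ∈ Finset.range l, (V.filter fun v => φ v = b).card
        ≤ ∑ b ∈ Finset.range l, l ^ R := by
          refine Finset.sum_le_sum fun b hb => ?_
          exact ih (by omega) c _ lev (hL.mono (Finset.filter_subset _ _))
            (hr b (Finset.mem_range.mp hb))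
      _ = l ^ (R + 1) := by
          rw [Finset.sum_const, Finset.card_range, smul_eq_mul, pow_succ]
          ring

theorem card_le_of_part (hP : ∀ R, Part l R) :
    ∀ (R : ℕ) (c : ℕ → ℕ → ℕ) (V : Finset ℕ) (lev : ℕ → ℕ → ℕ), Lev c V l lev → Rk c V R →
      V.card ≤ l ^ R :=
  fun R => card_le_of_part_upto (R₀ := R) (fun R' _ => hP R') R le_rfl

/-! ## The four classes of a colour -/

/-- `v` has an incoming edge of colour `g` -/
def InE (c : ℕ → ℕ → ℕ) (V : Finset ℕ) (g v : ℕ) : Prop := ∃ u ∈ V, u < v ∧ c u v = g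

/-- `v` has an outgoing edge of colour `g` -/
def OutE (c : ℕ → ℕ → ℕ) (V : Finset ℕ) (g v : ℕ) : Prop := ∃ w ∈ V, v < w ∧ c v w = g

/-- `g` in Out, not in In -/
noncomputable def SS (c : ℕ → ℕ → ℕ) (V : Finset ℕ) (g : ℕ) : Finset ℕ :=
  V.filter fun v => OutE c V g v ∧ ¬ InE c V g v

/-- `g` in Out and in In -/
noncomputable def MM (c : ℕ → ℕ → ℕ) (V : Finset ℕ) (g : ℕ) : Finset ℕ :=
  V.filter fun v => OutE c V g v ∧ InE c V g v

/-- `g` in In, not in Out -/
noncomputable def EE (c : ℕ → ℕ → ℕ) (V : Finset ℕ) (g : ℕ) : Finset ℕ :=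
  V.filter fun v => ¬ OutE c V g v ∧ InE c V g v

/-- the `g`-isolated vertices -/
noncomputable def TT (c : ℕ → ℕ → ℕ) (V : Finset ℕ) (g : ℕ) : Finset ℕ :=
  V.filter fun v => ¬ OutE c V g v ∧ ¬ InE c V g v

/-- some rainbow path with `R` edges inside `S ∪ T` ends at `t` -/
def EndS (c : ℕ → ℕ → ℕ) (V : Finset ℕ) (g R t : ℕ) : Prop :=
  ∃ D, RP c (SS c V g ∪ TT c V g) t D ∧ D.card = R

/-- some rainbow path with `R` edges inside `E ∪ T` starts at `t` -/
def StartE (c : ℕ → ℕ → ℕ) (V : Finset ℕ) (g R t : ℕ) : Prop :=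
  ∃ D, RS c (EE c V g ∪ TT c V g) t D ∧ D.card = R

/-- the double vertices of `g` -/
noncomputable def TD (c : ℕ → ℕ → ℕ) (V : Finset ℕ) (g R : ℕ) : Finset ℕ :=
  (TT c V g).filter fun t => EndS c V g R t ∧ StartE c V g R t

theorem RP.append {x : ℕ} {D : Finset ℕ} (h : RP c V x D) (hg : g ∉ D) (ho : OutE c V g x)
    (hR : Rk c V R) : D.card + 1 ≤ R := by
  obtain ⟨w, hw, hlt, hc⟩ := ho
  have h1 := hR _ _ (RP.step h hw hlt (by rw [hc]; exact hg))
  rwa [hc, Finset.card_insert_of_notMem hg] at h1

theorem RS.prepend {x : ℕ} {D : Finset ℕ} (h : RS c V x D) (hg : g ∉ D) (hi : InE c V g x)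
    (hR : Rk c V R) : D.card + 1 ≤ R := by
  obtain ⟨u, hu, hlt, hc⟩ := hi
  have h1 := (RS.step h hu hlt (by rw [hc]; exact hg)).card_le hR
  rwa [hc, Finset.card_insert_of_notMem hg] at h1

theorem free_of_notIn (hAV : A ⊆ V) (h : ∀ v ∈ A, ¬ InE c V g v) :
    ∀ u ∈ A, ∀ v ∈ A, u < v → c u v ≠ g := fun u hu v hv hlt hc => h v hv ⟨u, hAV hu, hlt, hc⟩

theorem free_of_notOut (hAV : A ⊆ V) (h : ∀ v ∈ A, ¬ OutE c V g v) :
    ∀ u ∈ A, ∀ v ∈ A, u < v → c u v ≠ g := fun u hu v hv hlt hc => h u hu ⟨v, hAV hv, hlt, hc⟩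

/-- the low class -/
theorem rank_low (hR : Rk c V (R + 1)) (hA : A ⊆ SS c V g ∪ TT c V g)
    (hT : ∀ t ∈ A, t ∈ TT c V g → ¬ EndS c V g (R + 1) t) : Rk c A R := by
  have hAV : A ⊆ V := hA.trans (Finset.union_subset (Finset.filter_subset _ _)
    (Finset.filter_subset _ _))
  have hin : ∀ v ∈ A, ¬ InE c V g v := by
    intro v hv
    rcases Finset.mem_union.mp (hA hv) with h | h
    · exact (Finset.mem_filter.mp h).2.2
    · exact (Finset.mem_filter.mp h).2.2
  intro y D hD
  have hg : g ∉ D := hD.notMem_of_free (free_of_notIn hAV hin)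
  by_contra hcon
  have h1 := hR y D (hD.mono hAV)
  rcases Finset.mem_union.mp (hA hD.mem) with h | h
  · have := (hD.mono hAV).append hg (Finset.mem_filter.mp h).2.1 hR
    omega
  · exact hT y hD.mem h ⟨D, hD.mono hA, by omega⟩

/-- the high class -/
theorem rank_high (hR : Rk c V (R + 1)) (hA : A ⊆ EE c V g ∪ TT c V g)
    (hT : ∀ t ∈ A, t ∈ TT c V g → ¬ StartE c V g (R + 1) t) : Rk c A R := by
  have hAV : A ⊆ V := hA.trans (Finset.union_subset (Finset.filter_subset _ _)
    (Finset.filter_subset _ _))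
  have hout : ∀ v ∈ A, ¬ OutE c V g v := by
    intro v hv
    rcases Finset.mem_union.mp (hA hv) with h | h
    · exact (Finset.mem_filter.mp h).2.1
    · exact (Finset.mem_filter.mp h).2.1
  intro y D hD
  obtain ⟨x, hx⟩ := hD.toRS
  have hg : g ∉ D := hD.notMem_of_free (free_of_notOut hAV hout)
  by_contra hcon
  have h1 := hR y D (hD.mono hAV)
  rcases Finset.mem_union.mp (hA hx.mem) with h | h
  · have := (hx.mono hAV).prepend hg (Finset.mem_filter.mp h).2.2 hR
    omega
  · exact hT x hx.mem h ⟨D, hx.mono hA, by omega⟩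

/-- a middle class -/
theorem rank_mid (hR : Rk c V (R + 1)) (hA : A ⊆ MM c V g ∪ T) (hAV : A ⊆ V)
    (hfree : ∀ u ∈ A, ∀ v ∈ A, u < v → c u v ≠ g)
    (hT : ¬ ∃ x y D, x ∈ T ∧ y ∈ T ∧ RQ c A x y D ∧ D.card = R + 1 ∧ g ∉ D) : Rk c A R := by
  intro y D hD
  obtain ⟨x, hx⟩ := hD.exists_RQ
  have hg : g ∉ D := hD.notMem_of_free hfree
  by_contra hcon
  have h1 := hR y D (hD.mono hAV)
  have h2 := hx.toRS
  have hy : y ∈ T := by
    rcases Finset.mem_union.mp (hA hD.mem) with h | h
    · have := (hD.mono hAV).append hg (Finset.mem_filter.mp h).2.1 hR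
      omega
    · exact h
  have hx' : x ∈ T := by
    rcases Finset.mem_union.mp (hA h2.mem) with h | h
    · have := (h2.mono hAV).prepend hg (Finset.mem_filter.mp h).2.2 hR
      omega
    · exact h
  exact hT ⟨x, y, D, hx', hy, hx, by omega, hg⟩

/-- The partition for one colour `g`: either there are no double vertices, or `l ≥ 3` and no
`g`-free rainbow path with `R + 1` edges inside `M ∪ TD` goes from a double vertex to a double
vertex. -/
theorem part_core (hl : 2 ≤ l) (hL : Lev c V l lev) (hR : Rk c V (R + 1))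
    (hT : TD c V g (R + 1) = ∅ ∨ (3 ≤ l ∧ ¬ ∃ x y D, x ∈ TD c V g (R + 1) ∧
      y ∈ TD c V g (R + 1) ∧ RQ c (MM c V g ∪ TD c V g (R + 1)) x y D ∧ D.card = R + 1 ∧ g ∉ D)) :
    ∃ φ : ℕ → ℕ, (∀ v ∈ V, φ v < l) ∧ ∀ i < l, Rk c (V.filter fun v => φ v = i) R := by
  set φ : ℕ → ℕ := fun v =>
    if OutE c V g v then (if InE c V g v then lev g v else 0)
    else if InE c V g v then l - 1
    else if EndS c V g (R + 1) v then (if StartE c V g (R + 1) v then 1 else l - 1)
    else 0 with hφ
  have hMlev : ∀ v ∈ V, OutE c V g v → InE c V g v → 1 ≤ lev g v ∧ lev g v ≤ l - 2 := by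
    rintro v hv ⟨w, hw, hvw, hcw⟩ ⟨u, hu, huv, hcu⟩
    have h1 := hL.up u hu v hv huv
    have h2 := hL.up v hv w hw hvw
    rw [hcu] at h1
    rw [hcw] at h2
    have h3 := hL.lt g w hw
    omega
  have hMM : ∀ v ∈ V, OutE c V g v → InE c V g v → v ∈ MM c V g := fun v hv h1 h2 =>
    Finset.mem_filter.mpr ⟨hv, h1, h2⟩
  refine ⟨φ, ?_, ?_⟩
  · intro v hv
    simp only [hφ]
    split_ifs with h1 h2 h3 h4 h5
    · exact hL.lt g v hv
    · omega
    · omega
    · omega
    · omega
    · omega
  · intro i hi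
    rcases Nat.eq_zero_or_pos i with rfl | hi0
    · -- the low class
      refine rank_low (g := g) hR ?_ ?_
      · intro v hv
        obtain ⟨hvV, hv0⟩ := Finset.mem_filter.mp hv
        simp only [hφ] at hv0
        rw [Finset.mem_union, SS, TT, Finset.mem_filter, Finset.mem_filter]
        split_ifs at hv0 with h1 h2 h3 h4 h5
        · have := hMlev v hvV h1 h2
          omega
        · exact Or.inl ⟨hvV, h1, h2⟩
        · omega
        · omega
        · exact Or.inr ⟨hvV, h1, h3⟩
      · intro t ht htT hE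
        obtain ⟨htV, ht0⟩ := Finset.mem_filter.mp ht
        obtain ⟨_, h1, h2⟩ := Finset.mem_filter.mp htT
        simp only [hφ, h1, h2, hE, if_false, if_true] at ht0
        split_ifs at ht0
        · omega
    · rcases Nat.lt_or_ge i (l - 1) with hil | hil
      · -- a middle class
        have hcl : (V.filter fun v => φ v = i) ⊆
            (MM c V g).filter (fun v => lev g v = i) ∪
              (if i = 1 then TD c V g (R + 1) else ∅) := by
          intro v hv
          obtain ⟨hvV, hv0⟩ := Finset.mem_filter.mp hv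
          simp only [hφ] at hv0
          rw [Finset.mem_union, Finset.mem_filter]
          split_ifs at hv0 with h1 h2 h3 h4 h5
          · exact Or.inl ⟨hMM v hvV h1 h2, hv0⟩
          · omega
          · omega
          · right
            rw [if_pos hv0.symm, TD, Finset.mem_filter, TT, Finset.mem_filter]
            exact ⟨⟨hvV, h1, h3⟩, h4, h5⟩
          · omega
          · omega
        have hsub : (V.filter fun v => φ v = i) ⊆ MM c V g ∪ TD c V g (R + 1) := by
          refine hcl.trans (Finset.union_subset_union (Finset.filter_subset _ _) ?_)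
          split_ifs
          · exact Finset.Subset.refl _
          · exact Finset.empty_subset _
        refine rank_mid (g := g) (T := TD c V g (R + 1)) hR hsub (Finset.filter_subset _ _) ?_ ?_
        · intro u hu v hv huv hc
          have huV := (Finset.mem_filter.mp hu).1
          have hvV := (Finset.mem_filter.mp hv).1
          have h1 : OutE c V g u := ⟨v, hvV, huv, hc⟩
          have h2 : InE c V g v := ⟨u, huV, huv, hc⟩
          have h3 : ∀ w ∈ (V.filter fun v => φ v = i), (OutE c V g w ∨ InE c V g w) →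
              lev g w = i := by
            intro w hw hor
            rcases Finset.mem_union.mp (hcl hw) with h | h
            · exact (Finset.mem_filter.mp h).2
            · exfalso
              split_ifs at h with h4
              · have h5 := (Finset.mem_filter.mp (Finset.mem_filter.mp h).1).2
                tauto
              · exact absurd h (Finset.notMem_empty _)
          have h4 := h3 u hu (Or.inl h1)
          have h5 := h3 v hv (Or.inr h2)
          have h6 := hL.up u huV v hvV huv
          rw [hc] at h6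
          omega
        · rcases hT with hT | ⟨_, hT⟩
          · rintro ⟨x, y, D, hx, _⟩
            rw [hT] at hx
            exact absurd hx (Finset.notMem_empty _)
          · rintro ⟨x, y, D, hx, hy, hQ, h1, h2⟩
            exact hT ⟨x, y, D, hx, hy, hQ.mono hsub, h1, h2⟩
      · -- the high class
        have hi' : i = l - 1 := by omega
        subst hi'
        have hno : ∀ v ∈ V, φ v = l - 1 → ¬ OutE c V g v := by
          intro v hvV hv0 ho
          simp only [hφ, if_pos ho] at hv0
          split_ifs at hv0 with h2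
          · have := hMlev v hvV ho h2
            omega
          · omega
        have hT1 : ∀ t ∈ V, φ t = l - 1 → ¬ InE c V g t → ¬ StartE c V g (R + 1) t := by
          intro t htV ht0 h2 hS
          have h1 := hno t htV ht0
          have hE : EndS c V g (R + 1) t := by
            by_contra hE
            simp only [hφ, h1, h2, hE, if_false] at ht0
            omega
          simp only [hφ, h1, h2, hE, hS, if_false, if_true] at ht0
          have htTD : t ∈ TD c V g (R + 1) :=
            Finset.mem_filter.mpr ⟨Finset.mem_filter.mpr ⟨htV, h1, h2⟩, hE, hS⟩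
          rcases hT with hT | ⟨h3, _⟩
          · rw [hT] at htTD
            exact absurd htTD (Finset.notMem_empty _)
          · omega
        refine rank_high (g := g) hR ?_ ?_
        · intro v hv
          obtain ⟨hvV, hv0⟩ := Finset.mem_filter.mp hv
          rw [Finset.mem_union, EE, TT, Finset.mem_filter, Finset.mem_filter]
          by_cases h1 : InE c V g v
          · exact Or.inl ⟨hvV, hno v hvV hv0, h1⟩
          · exact Or.inr ⟨hvV, hno v hvV hv0, h1⟩
        · intro t ht htT
          obtain ⟨htV, ht0⟩ := Finset.mem_filter.mp ht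
          exact hT1 t htV ht0 (Finset.mem_filter.mp htT).2.2

end FlashRainbow
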