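import Mathlib.Data.Nat.Find
import Mathlib.Data.Fintype.Card
import Mathlib.Order.Fin.Basic
import Mathlib.Tactic

/-!
# The lower bound `f(l,k) ≥ l^(k-1)` (known, Lefmann-Rödl-Thomas): the lexicographic colouring

The colour of a pair is the position of the first (most significant) base `l` digit in which the
two numbers differ.
-/

set_option autoImplicit false

namespace FlashRainbow

/-- position of the most significant base `l` digit in which `x` and `y` differ -/
def topdiff (l k x y : ℕ) : ℕ := Nat.findGreatest (fun i => x / l ^ i ≠ y / l ^ i) k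

theorem topdiff_spec {l k x y : ℕ} (h : x ≠ y) :
    x / l ^ topdiff l k x y ≠ y / l ^ topdiff l k x y :=
  Nat.findGreatest_spec (P := fun i => x / l ^ i ≠ y / l ^ i) (Nat.zero_le k) (by simpa using h)

theorem topdiff_lt {l k x y : ℕ} (h : x ≠ y) (hx : x < l ^ k) (hy : y < l ^ k) :
    topdiff l k x y < k := by
  refine lt_of_le_of_ne (Nat.findGreatest_le _) ?_
  intro h1
  have h2 := topdiff_spec (l := l) (k := k) h
  rw [show topdiff l k x y = k from h1, Nat.div_eq_of_lt hx, Nat.div_eq_of_lt hy] at h2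
  exact h2 rfl

theorem topdiff_succ {l k x y : ℕ} (h : x ≠ y) (hx : x < l ^ k) (hy : y < l ^ k) :
    x / l ^ (topdiff l k x y + 1) = y / l ^ (topdiff l k x y + 1) := by
  have h1 := topdiff_lt h hx hy
  by_contra h2
  have h3 := Nat.le_findGreatest (P := fun i => x / l ^ i ≠ y / l ^ i) (n := k)
    (m := topdiff l k x y + 1) (by omega) h2
  have h4 : topdiff l k x y + 1 ≤ topdiff l k x y := h3
  omega

/-- the grid colouring has neither an `l`-flash nor a `k`-rainbow -/
theorem lower (l k : ℕ) (hl : 1 ≤ l) (hk : 1 ≤ k) :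
    ∃ c : Fin (l ^ (k - 1)) → Fin (l ^ (k - 1)) → ℕ,
      (¬ ∃ x : Fin (l + 1) → Fin (l ^ (k - 1)), StrictMono x ∧
          ∃ col : ℕ, ∀ i : Fin l, c (x i.castSucc) (x i.succ) = col) ∧
      (¬ ∃ y : Fin (k + 1) → Fin (l ^ (k - 1)), StrictMono y ∧
          Function.Injective (fun i : Fin k => c (y i.castSucc) (y i.succ))) := by
  refine ⟨fun a b => topdiff l (k - 1) a b, ?_, ?_⟩
  · rintro ⟨x, hx, col, hcol⟩
    -- the quotients by `l ^ col` increase, those by `l ^ (col + 1)` are constant
    have h0 : ∀ i : Fin l, (x i.castSucc : ℕ) < x i.succ := fun i =>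
      Fin.lt_def.mp (hx i.castSucc_lt_succ)
    have h1 : ∀ i : Fin l, (x i.castSucc : ℕ) / l ^ col < (x i.succ : ℕ) / l ^ col := by
      intro i
      have h2 := topdiff_spec (l := l) (k := k - 1) (h0 i).ne
      have h3 := hcol i
      simp only at h3
      rw [h3] at h2
      exact lt_of_le_of_ne (Nat.div_le_div_right (h0 i).le) h2
    have h2 : ∀ i : Fin l, (x i.castSucc : ℕ) / l ^ (col + 1) = (x i.succ : ℕ) / l ^ (col + 1) := by
      intro i
      have h2 := topdiff_succ (l := l) (k := k - 1) (h0 i).ne (x i.castSucc).2 (x i.succ).2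
      have h3 := hcol i
      simp only at h3
      rwa [h3] at h2
    have h3 : ∀ (i : ℕ) (hi : i < l + 1),
        i + (x ⟨0, by omega⟩ : ℕ) / l ^ col ≤ (x ⟨i, hi⟩ : ℕ) / l ^ col ∧
        (x ⟨0, by omega⟩ : ℕ) / l ^ (col + 1) = (x ⟨i, hi⟩ : ℕ) / l ^ (col + 1) := by
      intro i
      induction i with
      | zero => intro _; exact ⟨by omega, rfl⟩
      | succ i ih =>
        intro hi
        obtain ⟨h4, h5⟩ := ih (by omega)
        have h6 := h1 ⟨i, by omega⟩
        have h7 := h2 ⟨i, by omega⟩
        simp only [Fin.castSucc_mk, Fin.succ_mk] at h6 h7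
        exact ⟨by omega, h5.trans h7⟩
    obtain ⟨h4, h5⟩ := h3 l (by omega)
    rw [pow_succ, ← Nat.div_div_eq_div_mul, ← Nat.div_div_eq_div_mul] at h5
    generalize (x ⟨0, by omega⟩ : ℕ) / l ^ col = a at h4 h5
    generalize (x ⟨l, by omega⟩ : ℕ) / l ^ col = b at h4 h5
    have h6 : (a + l) / l ≤ b / l := Nat.div_le_div_right (by omega)
    rw [Nat.add_div_right _ (by omega)] at h6
    omega
  · rintro ⟨y, hy, hinj⟩
    have h0 : ∀ i : Fin k, topdiff l (k - 1) (y i.castSucc) (y i.succ) < k - 1 := fun i =>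
      topdiff_lt (Fin.lt_def.mp (hy i.castSucc_lt_succ)).ne (y i.castSucc).2 (y i.succ).2
    have h1 : Function.Injective (fun i : Fin k =>
        (⟨topdiff l (k - 1) (y i.castSucc) (y i.succ), h0 i⟩ : Fin (k - 1))) := by
      intro i j hij
      exact hinj (by simpa using hij)
    have h2 := Fintype.card_le_of_injective _ h1
    simp only [Fintype.card_fin] at h2
    omega

end FlashRainbow
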