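import Pool.Agent.Work.MP_54723a_co.PC.Forms

/-!
# The root statements and `|V| ≤ l ^ R`
-/

set_option autoImplicit false

namespace FlashRainbow

open Classical

variable {l : ℕ}

/-- note 6942 (A), for `V` without `l`-flash and of rank at most `R`: some colour `g` has no
rainbow path with `R` edges inside `M ∪ T*`, `T*` = the double vertices of `g` -/
def FormA (l R : ℕ) : Prop :=
  ∀ (c : ℕ → ℕ → ℕ) (V : Finset ℕ) (lev : ℕ → ℕ → ℕ), Lev c V l lev → Rk c V R →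
    ∃ g, ¬ ∃ x D, RP c (MM c V g ∪ TD c V g R) x D ∧ D.card = R

/-- note 6942 (B) = PC* = T2E: some colour has no double vertices -/
def FormB (l R : ℕ) : Prop :=
  ∀ (c : ℕ → ℕ → ℕ) (V : Finset ℕ) (lev : ℕ → ℕ → ℕ), Lev c V l lev → Rk c V R →
    ∃ g, TD c V g R = ∅

/-- the `g`-isolated vertices which end and start a `g`-free rainbow path with `R` edges in `V` -/
noncomputable def T2 (c : ℕ → ℕ → ℕ) (V : Finset ℕ) (g R : ℕ) : Finset ℕ :=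
  (TT c V g).filter fun t =>
    (∃ D, RP c V t D ∧ D.card = R ∧ g ∉ D) ∧ ∃ D, RS c V t D ∧ D.card = R ∧ g ∉ D

/-- note 6940 PC' : some colour `g` has no rainbow path with `R` edges in `M ∪ T_2(g)` -/
def FormPC' (l R : ℕ) : Prop :=
  ∀ (c : ℕ → ℕ → ℕ) (V : Finset ℕ) (lev : ℕ → ℕ → ℕ), Lev c V l lev → Rk c V R →
    ∃ g, ¬ ∃ x D, RP c (MM c V g ∪ T2 c V g R) x D ∧ D.card = R

/-- a 3-chain avoiding `g`: three consecutive `g`-free rainbow paths with `R` edges -/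
def Chain3 (c : ℕ → ℕ → ℕ) (V : Finset ℕ) (g R : ℕ) : Prop :=
  ∃ z z' D' D D'', RP c V z D' ∧ D'.card = R ∧ g ∉ D' ∧ RQ c V z z' D ∧ D.card = R ∧ g ∉ D ∧
    RS c V z' D'' ∧ D''.card = R ∧ g ∉ D''

/-- the chain lemma with the flash hypothesis -/
def CHl (l R : ℕ) : Prop :=
  ∀ (c : ℕ → ℕ → ℕ) (V : Finset ℕ) (lev : ℕ → ℕ → ℕ), Lev c V l lev → Rk c V R →
    ∃ g, ¬ Chain3 c V g R

/-- the chain lemma of note 6959 (no flash condition); for `g` an unused colour the statement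
says that there is no 3-chain at all, so the word used need not be asked for -/
def CH (R : ℕ) : Prop :=
  ∀ (c : ℕ → ℕ → ℕ) (V : Finset ℕ), Rk c V R → ∃ g, ¬ Chain3 c V g R

theorem CHl_of_CH {R : ℕ} (h : CH R) : CHl l R := fun c V _ _ hR => h c V hR

theorem SS_TT_sub {c : ℕ → ℕ → ℕ} {V : Finset ℕ} {g : ℕ} : SS c V g ∪ TT c V g ⊆ V :=
  Finset.union_subset (Finset.filter_subset _ _) (Finset.filter_subset _ _)

theorem EE_TT_sub {c : ℕ → ℕ → ℕ} {V : Finset ℕ} {g : ℕ} : EE c V g ∪ TT c V g ⊆ V :=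
  Finset.union_subset (Finset.filter_subset _ _) (Finset.filter_subset _ _)

theorem TT_sub {c : ℕ → ℕ → ℕ} {V : Finset ℕ} {g : ℕ} : TT c V g ⊆ V := Finset.filter_subset _ _

theorem MM_sub {c : ℕ → ℕ → ℕ} {V : Finset ℕ} {g : ℕ} : MM c V g ⊆ V := Finset.filter_subset _ _

theorem TD_sub {c : ℕ → ℕ → ℕ} {V : Finset ℕ} {g R : ℕ} : TD c V g R ⊆ V :=
  (Finset.filter_subset _ _).trans TT_sub

theorem free_low {c : ℕ → ℕ → ℕ} {V : Finset ℕ} {g : ℕ} :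
    ∀ u ∈ SS c V g ∪ TT c V g, ∀ v ∈ SS c V g ∪ TT c V g, u < v → c u v ≠ g := by
  refine free_of_notIn SS_TT_sub ?_
  intro v hv
  rcases Finset.mem_union.mp hv with h | h
  · exact (Finset.mem_filter.mp h).2.2
  · exact (Finset.mem_filter.mp h).2.2

theorem free_high {c : ℕ → ℕ → ℕ} {V : Finset ℕ} {g : ℕ} :
    ∀ u ∈ EE c V g ∪ TT c V g, ∀ v ∈ EE c V g ∪ TT c V g, u < v → c u v ≠ g := by
  refine free_of_notOut EE_TT_sub ?_
  intro v hv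
  rcases Finset.mem_union.mp hv with h | h
  · exact (Finset.mem_filter.mp h).2.1
  · exact (Finset.mem_filter.mp h).2.1

theorem TD_sub_T2 {c : ℕ → ℕ → ℕ} {V : Finset ℕ} {g R : ℕ} : TD c V g R ⊆ T2 c V g R := by
  intro t ht
  obtain ⟨htT, ⟨D, hD, hDc⟩, ⟨D', hD', hDc'⟩⟩ := Finset.mem_filter.mp ht
  exact Finset.mem_filter.mpr ⟨htT, ⟨D, hD.mono SS_TT_sub, hDc, hD.notMem_of_free free_low⟩,
    ⟨D', hD'.mono EE_TT_sub, hDc', hD'.notMem_of_free free_high⟩⟩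

theorem part_of_A (hl : 3 ≤ l) {R : ℕ} (h : FormA l (R + 1)) : Part l R := by
  intro c V lev hL hR
  obtain ⟨g, hg⟩ := h c V lev hL hR
  refine part_core (g := g) (by omega) hL hR (Or.inr ⟨hl, ?_⟩)
  rintro ⟨x, y, D, _, _, hQ, hc, _⟩
  exact hg ⟨y, D, hQ.toRP, hc⟩

theorem part_of_B (hl : 2 ≤ l) {R : ℕ} (h : FormB l (R + 1)) : Part l R := by
  intro c V lev hL hR
  obtain ⟨g, hg⟩ := h c V lev hL hR
  exact part_core (g := g) hl hL hR (Or.inl hg)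

theorem FormA_of_PC' {R : ℕ} (h : FormPC' l R) : FormA l R := by
  intro c V lev hL hR
  obtain ⟨g, hg⟩ := h c V lev hL hR
  refine ⟨g, ?_⟩
  rintro ⟨x, D, hD, hc⟩
  exact hg ⟨x, D, hD.mono (Finset.union_subset_union (Finset.Subset.refl _) TD_sub_T2), hc⟩

theorem part_of_CHl (hl : 3 ≤ l) {R : ℕ} (h : CHl l (R + 1)) : Part l R := by
  intro c V lev hL hR
  obtain ⟨g, hg⟩ := h c V lev hL hR
  refine part_core (g := g) (by omega) hL hR (Or.inr ⟨hl, ?_⟩)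
  rintro ⟨x, y, D, hx, hy, hQ, hc, hgD⟩
  obtain ⟨_, ⟨D', hD', hDc'⟩, _⟩ := Finset.mem_filter.mp hx
  obtain ⟨_, _, ⟨D'', hD'', hDc''⟩⟩ := Finset.mem_filter.mp hy
  exact hg ⟨x, y, D', D, D'', hD'.mono SS_TT_sub, hDc', hD'.notMem_of_free free_low,
    hQ.mono (Finset.union_subset MM_sub TD_sub), hc, hgD,
    hD''.mono EE_TT_sub, hDc'', hD''.notMem_of_free free_high⟩

/-! ## The bounds -/

/-- the bound `|V| ≤ l ^ R` for all `V` without `l`-flash and of rank at most `R` -/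
def BndAt (l R : ℕ) : Prop :=
  ∀ (c : ℕ → ℕ → ℕ) (V : Finset ℕ) (lev : ℕ → ℕ → ℕ), Lev c V l lev → Rk c V R →
    V.card ≤ l ^ R

/-- the bound for all ranks -/
def Bnd (l : ℕ) : Prop := ∀ R, BndAt l R

theorem BndAt_of_part {R₀ : ℕ} (h : ∀ R < R₀, Part l R) {R : ℕ} (hR : R ≤ R₀) : BndAt l R :=
  card_le_of_part_upto h R hR

theorem Bnd_of_part (h : ∀ R, Part l R) : Bnd l := fun _ => BndAt_of_part (fun R _ => h R) le_rfl

/-- versions up to `R₀` -/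
theorem BndAt_of_A (hl : 3 ≤ l) {R₀ : ℕ} (h : ∀ R, 1 ≤ R → R ≤ R₀ → FormA l R) {R : ℕ}
    (hR : R ≤ R₀) : BndAt l R :=
  BndAt_of_part (fun R hR => part_of_A hl (h (R + 1) (Nat.succ_pos R) hR)) hR

theorem BndAt_of_B (hl : 2 ≤ l) {R₀ : ℕ} (h : ∀ R, 1 ≤ R → R ≤ R₀ → FormB l R) {R : ℕ}
    (hR : R ≤ R₀) : BndAt l R :=
  BndAt_of_part (fun R hR => part_of_B hl (h (R + 1) (Nat.succ_pos R) hR)) hR

theorem BndAt_of_PC' (hl : 3 ≤ l) {R₀ : ℕ} (h : ∀ R, 1 ≤ R → R ≤ R₀ → FormPC' l R) {R : ℕ}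
    (hR : R ≤ R₀) : BndAt l R :=
  BndAt_of_A hl (fun R h1 h2 => FormA_of_PC' (h R h1 h2)) hR

theorem BndAt_of_CHl (hl : 3 ≤ l) {R₀ : ℕ} (h : ∀ R, 1 ≤ R → R ≤ R₀ → CHl l R) {R : ℕ}
    (hR : R ≤ R₀) : BndAt l R :=
  BndAt_of_part (fun R hR => part_of_CHl hl (h (R + 1) (Nat.succ_pos R) hR)) hR

theorem BndAt_of_CH (hl : 3 ≤ l) {R₀ : ℕ} (h : ∀ R, 1 ≤ R → R ≤ R₀ → CH R) {R : ℕ}
    (hR : R ≤ R₀) : BndAt l R :=
  BndAt_of_CHl hl (fun R h1 h2 => CHl_of_CH (h R h1 h2)) hR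

/-- versions for all ranks -/
theorem Bnd_of_A (hl : 3 ≤ l) (h : ∀ R, 1 ≤ R → FormA l R) : Bnd l :=
  fun _ => BndAt_of_A hl (fun R h1 _ => h R h1) le_rfl

theorem Bnd_of_B (hl : 2 ≤ l) (h : ∀ R, 1 ≤ R → FormB l R) : Bnd l :=
  fun _ => BndAt_of_B hl (fun R h1 _ => h R h1) le_rfl

theorem Bnd_of_PC' (hl : 3 ≤ l) (h : ∀ R, 1 ≤ R → FormPC' l R) : Bnd l :=
  fun _ => BndAt_of_PC' hl (fun R h1 _ => h R h1) le_rfl

theorem Bnd_of_CHl (hl : 3 ≤ l) (h : ∀ R, 1 ≤ R → CHl l R) : Bnd l :=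
  fun _ => BndAt_of_CHl hl (fun R h1 _ => h R h1) le_rfl

theorem Bnd_of_CH (hl : 3 ≤ l) (h : ∀ R, 1 ≤ R → CH R) : Bnd l :=
  fun _ => BndAt_of_CH hl (fun R h1 _ => h R h1) le_rfl

/-- CHI form: three sets of rank at most `R` which cover `V` (any `l` sets; flash condition kept) -/
def Cover (l R : ℕ) : Prop :=
  ∀ (c : ℕ → ℕ → ℕ) (V : Finset ℕ) (lev : ℕ → ℕ → ℕ), Lev c V l lev → Rk c V (R + 1) →
    ∃ W : ℕ → Finset ℕ, (∀ v ∈ V, ∃ i < l, v ∈ W i) ∧ ∀ i < l, Rk c (W i) R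

theorem part_of_cover {R : ℕ} (h : Cover l R) : Part l R := by
  intro c V lev hL hR
  obtain ⟨W, hW, hr⟩ := h c V lev hL hR
  choose! φ hφ hφW using hW
  refine ⟨φ, hφ, fun i hi => (hr i hi).sub ?_⟩
  intro v hv
  obtain ⟨hvV, hv0⟩ := Finset.mem_filter.mp hv
  rw [← hv0]
  exact hφW v hvV

end FlashRainbow
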